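import Pool.Agent.H.MP_a29272_gt.Trap

namespace Pool.Agent.H.MP_a29272_gt

open Matrix Pool.Agent.H.MP_44343f_gt Set Filter Topology

noncomputable def quad (p v a : V 3) (t : ℝ) : V 3 := p + t • v - (t ^ 2 / 2) • a

lemma quad_zero (p v a : V 3) : quad p v a 0 = p := by simp [quad]

lemma hd_quad (p v a : V 3) (t : ℝ) : HasDerivAt (quad p v a) (v - t • a) t := by
  have h1 := ((hasDerivAt_id t).smul_const v).const_add p
  have h2 := (((hasDerivAt_id t).pow 2).div_const 2).smul_const a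
  refine HasDerivAt.congr_deriv (h1.sub h2) ?_
  simp

lemma hd_quad' (v a : V 3) (t : ℝ) : HasDerivAt (fun t : ℝ => v - t • a) (-a) t := by
  have h1 := ((hasDerivAt_id t).smul_const a).const_sub v
  refine HasDerivAt.congr_deriv h1 ?_
  simp

lemma sd_aux {f : V 3 → ℝ} {p : V 3} (hf : ContDiffAt ℝ 2 f p) {c c' : ℝ → V 3} {a : V 3}
    (h0 : c 0 = p) (hc : HasDerivAt c (c' 0) 0) (hc' : HasDerivAt c' a 0) :
    HasDerivAt (fun t => fderiv ℝ f (c t) (c' t))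
      (fderiv ℝ (fderiv ℝ f) p (c' 0) (c' 0) + fderiv ℝ f p a) 0 := by
  have hf1 : ContDiffAt ℝ 1 (fderiv ℝ f) p := hf.fderiv_right (by norm_num)
  have hF : HasFDerivAt (fderiv ℝ f) (fderiv ℝ (fderiv ℝ f) p) (c 0) := by
    rw [h0]; exact (hf1.differentiableAt (by norm_num)).hasFDerivAt
  have h1 : HasDerivAt (fun t => fderiv ℝ f (c t)) (fderiv ℝ (fderiv ℝ f) p (c' 0)) 0 :=
    hF.comp_hasDerivAt (0 : ℝ) hc
  have h2 := h1.clm_apply hc'
  rw [h0] at h2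
  exact h2

lemma second_deriv {g : Met 3} {f : V 3 → ℝ} {p : V 3} (v : V 3) (hf : ContDiffAt ℝ 2 f p) :
    deriv (deriv (fun t => f (quad p v (chr g p v v) t))) 0 = hess g f p v v := by
  unfold hess
  generalize chr g p v v = a
  have hev : ∀ᶠ z in 𝓝 p, DifferentiableAt ℝ f z := by
    filter_upwards [hf.eventually (by simp)] with z hz
    exact hz.differentiableAt (by norm_num)
  have hq : Tendsto (quad p v a) (𝓝 0) (𝓝 p) := by
    have := (hd_quad p v a 0).continuousAt.tendsto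
    rwa [quad_zero] at this
  have e1 : deriv (fun t => f (quad p v a t)) =ᶠ[𝓝 0]
      fun t => fderiv ℝ f (quad p v a t) (v - t • a) := by
    filter_upwards [hq.eventually hev] with t ht
    have : HasDerivAt (fun t => f (quad p v a t)) (fderiv ℝ f (quad p v a t) (v - t • a)) t :=
      ht.hasFDerivAt.comp_hasDerivAt t (hd_quad p v a t)
    exact this.deriv
  have h1 := sd_aux hf (c := quad p v a) (c' := fun t => v - t • a) (quad_zero p v a)
    (hd_quad p v a 0) (hd_quad' v a 0)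
  have hl : Tendsto (fun r : ℝ => p + r • v) (𝓝 0) (𝓝 p) := by
    have := (hd_line p v).continuousAt.tendsto
    simpa using this
  have e2 : (fun r : ℝ => lineDeriv ℝ f (p + r • v) v) =ᶠ[𝓝 0]
      fun r => fderiv ℝ f (p + r • v) v := by
    filter_upwards [hl.eventually hev] with t ht
    exact ht.lineDeriv_eq_fderiv
  have h2 := sd_aux hf (c := fun r : ℝ => p + r • v) (c' := fun _ => v) (by simp)
    (hd_line p v) (hasDerivAt_const (0 : ℝ) v)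
  have e3 : lineDeriv ℝ (fun z => lineDeriv ℝ f z v) p v =
      deriv (fun r : ℝ => lineDeriv ℝ f (p + r • v) v) 0 := rfl
  rw [e1.deriv_eq, h1.deriv, e3, e2.deriv_eq, h2.deriv, hev.self_of_nhds.lineDeriv_eq_fderiv]
  simp [sub_eq_add_neg]

noncomputable def ph3 (x : V 3) : ℝ := ((x 0 ^ 2 + x 1 ^ 2) / 2 - 30) ^ 2 + 4 * x 2 ^ 2

lemma ph3_cont : Continuous ph3 := by unfold ph3; fun_prop

lemma S_bound {x : V 3} (h : ph3 x ≤ 400) :
    x ⬝ᵥ x ≤ 200 ∧ 20 ≤ x 0 ^ 2 + x 1 ^ 2 := by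
  unfold ph3 at h
  rw [dot3]
  have h1 : ((x 0 ^ 2 + x 1 ^ 2) / 2 - 30) ^ 2 ≤ 20 ^ 2 := by nlinarith [sq_nonneg (x 2)]
  have h2 := abs_le.1 (abs_le_of_sq_le_sq' h1 (by norm_num) |> abs_le.2)
  have h3 : x 2 ^ 2 ≤ 100 := by nlinarith [sq_nonneg ((x 0 ^ 2 + x 1 ^ 2) / 2 - 30)]
  constructor <;> nlinarith [h2.1, h2.2]

lemma S_compact : IsCompact {x : V 3 | ph3 x ≤ 400} := by
  apply Metric.isCompact_of_isClosed_isBounded (isClosed_le ph3_cont continuous_const)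
  rw [Metric.isBounded_iff_subset_closedBall 0]
  refine ⟨15, fun x hx => ?_⟩
  have h := (S_bound hx).1
  rw [dot3] at h
  rw [mem_closedBall_zero_iff, pi_norm_le_iff_of_nonneg (by norm_num)]
  intro i
  rw [Real.norm_eq_abs]
  apply abs_le_of_sq_le_sq' _ (by norm_num) |> abs_le.2
  have a0 := mul_self_nonneg (x 0)
  have a1 := mul_self_nonneg (x 1)
  have a2 := mul_self_nonneg (x 2)
  fin_cases i <;> simp <;> nlinarith

lemma chr_nil {p : V 3} (hp : p ⬝ᵥ p ≤ 200) (v : V 3) :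
    chr gN p v v 0 = v 1 * th p v ∧ chr gN p v v 1 = - v 0 * th p v ∧
      chr gN p v v 2 = - th p v * (p 0 * v 0 + p 1 * v 1) / 2 := by
  have h0 := ip_chr p v (bv 0)
  have h1 := ip_chr p v (bv 1)
  have h2 := ip_chr p v (bv 2)
  rw [ip_g, el_zero hp, del_zero hp] at h0 h1 h2
  generalize chr gN p v v = a at *
  generalize th p v = w at *
  simp [bv, cr, th] at h0 h1 h2
  have e0 : a 0 = v 1 * w := by rw [h2] at h0; linarith
  have e1 : a 1 = - v 0 * w := by rw [h2] at h1; linarith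
  refine ⟨e0, e1, ?_⟩
  rw [e0, e1] at h2
  linarith

lemma hd_ph3 (p v a : V 3) (t : ℝ) : HasDerivAt (fun t => ph3 (quad p v a t))
    (2 * (((quad p v a t 0) ^ 2 + (quad p v a t 1) ^ 2) / 2 - 30) *
      (quad p v a t 0 * (v - t • a) 0 + quad p v a t 1 * (v - t • a) 1)
      + 8 * quad p v a t 2 * (v - t • a) 2) t := by
  have h := hasDerivAt_pi.1 (hd_quad p v a t)
  have := ((((((h 0).pow 2).add ((h 1).pow 2)).div_const 2).sub_const 30).pow 2).add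
    (((h 2).pow 2).const_mul 4)
  refine HasDerivAt.congr_deriv this ?_
  simp only [Pi.add_apply, Pi.pow_apply]
  push_cast
  ring

lemma dd_ph3 (p v a : V 3) : deriv (deriv (fun t => ph3 (quad p v a t))) 0 =
    2 * (p 0 * v 0 + p 1 * v 1) ^ 2 + 2 * ((p 0 ^ 2 + p 1 ^ 2) / 2 - 30) *
      (v 0 ^ 2 + v 1 ^ 2 - p 0 * a 0 - p 1 * a 1) + 8 * v 2 ^ 2 - 8 * p 2 * a 2 := by
  have e : deriv (fun t => ph3 (quad p v a t)) = _ := funext fun t => (hd_ph3 p v a t).deriv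
  rw [e]
  have h := hasDerivAt_pi.1 (hd_quad p v a 0)
  have k := hasDerivAt_pi.1 (hd_quad' v a 0)
  have := (((((((h 0).pow 2).add ((h 1).pow 2)).div_const 2).sub_const 30).const_mul 2).mul
    (((h 0).mul (k 0)).add ((h 1).mul (k 1)))).add (((h 2).const_mul 8).mul (k 2))
  refine (HasDerivAt.deriv this).trans ?_
  simp [quad_zero]
  ring

lemma good_dir {p : V 3} (hp : ph3 p ≤ 400) : ∃ v : V 3, v ≠ 0 ∧
    ∀ᶠ t in 𝓝 (0 : ℝ), ph3 (quad p v (chr gN p v v) t) ≤ 400 := by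
  obtain ⟨hb, hr⟩ := S_bound hp
  obtain ⟨s, hs⟩ : ∃ s, s = p 0 ^ 2 + p 1 ^ 2 := ⟨_, rfl⟩
  obtain ⟨α, hα⟩ : ∃ α, α = s / 2 - 30 := ⟨_, rfl⟩
  have hs0 : 0 < s := by linarith
  obtain ⟨v, hv⟩ : ∃ v : V 3, v = ![(-8 * p 2 * p 0 - (4 * α - 40) * p 1) / s,
    (-8 * p 2 * p 1 + (4 * α - 40) * p 0) / s, 2 * α] := ⟨_, rfl⟩
  have v0 : v 0 = (-8 * p 2 * p 0 - (4 * α - 40) * p 1) / s := by rw [hv]; rfl
  have v1 : v 1 = (-8 * p 2 * p 1 + (4 * α - 40) * p 0) / s := by rw [hv]; rfl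
  have v2 : v 2 = 2 * α := by rw [hv]; rfl
  have r1 : p 0 * v 0 + p 1 * v 1 = -8 * p 2 := by
    rw [v0, v1]; field_simp; rw [hs]; ring
  have r2 : p 0 * v 1 - p 1 * v 0 = 4 * α - 40 := by
    rw [v0, v1]; field_simp; rw [hs]; ring
  have r3 : s * (v 0 ^ 2 + v 1 ^ 2) = 64 * p 2 ^ 2 + (4 * α - 40) ^ 2 := by
    rw [← r2, show 64 * p 2 ^ 2 = (-8 * p 2) ^ 2 by ring, ← r1, hs]; ring
  have hw : th p v = 20 := by unfold th; linarith
  refine ⟨v, fun h => by simp [h, th] at hw, ?_⟩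
  have hc : ContinuousAt (fun t => ph3 (quad p v (chr gN p v v) t)) 0 :=
    (hd_ph3 p v _ 0).continuousAt
  rcases hp.lt_or_eq with h | h
  · have : ∀ᶠ t in 𝓝 (0 : ℝ), ph3 (quad p v (chr gN p v v) t) < 400 :=
      hc.eventually (gt_mem_nhds (by simpa [quad_zero] using h))
    exact this.mono fun t ht => ht.le
  · obtain ⟨a0, a1, a2⟩ := chr_nil hb v
    have hm := isLocalMax_of_deriv_deriv_neg (f := fun t => ph3 (quad p v (chr gN p v v) t))
      (x₀ := 0) ?_ ?_ hc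
    · filter_upwards [hm] with t ht
      rwa [quad_zero, h] at ht
    · rw [dd_ph3, a0, a1, a2, hw, r1, v2, ← hs, ← hα]
      unfold ph3 at h
      rw [← hs, ← hα] at h
      have e : v 0 ^ 2 + v 1 ^ 2 - p 0 * (v 1 * 20) - p 1 * (-v 0 * 20) =
          v 0 ^ 2 + v 1 ^ 2 - 20 * (4 * α - 40) := by rw [← r2]; ring
      rw [e]
      obtain ⟨q, hq⟩ : ∃ q, q = v 0 ^ 2 + v 1 ^ 2 := ⟨_, rfl⟩
      rw [← hq] at r3 ⊢
      have hq0 : 0 ≤ q := by rw [hq]; positivity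
      have hα2 : α ≤ 20 := by nlinarith [sq_nonneg (p 2)]
      have hαq : α * q ≤ 4000 := by
        rcases le_or_gt α 0 with h0 | h0
        · nlinarith
        · have : s * q ≤ 8000 := by rw [r3]; nlinarith [sq_nonneg (p 2)]
          nlinarith
      nlinarith
    · rw [(hd_ph3 p v _ 0).deriv]
      simp only [quad_zero, zero_smul, sub_zero]
      rw [r1, v2, ← hs, ← hα]; ring

lemma no_convex : ¬ ∃ f : V 3 → ℝ, ContDiffOn ℝ 2 f {x | x ⬝ᵥ x < 201} ∧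
    ∀ x, x ⬝ᵥ x < 201 → ∀ v, v ≠ 0 → 0 < hess gN f x v v := by
  rintro ⟨f, hf, hpos⟩
  have hU : IsOpen {x : V 3 | x ⬝ᵥ x < 201} := by
    apply isOpen_lt _ continuous_const
    simp only [dot3]; fun_prop
  have hSU : {x : V 3 | ph3 x ≤ 400} ⊆ {x | x ⬝ᵥ x < 201} := fun x hx =>
    lt_of_le_of_lt (S_bound hx).1 (by norm_num)
  have hne : {x : V 3 | ph3 x ≤ 400}.Nonempty := ⟨![8, 0, 0], by simp [ph3]; norm_num⟩
  obtain ⟨p, hp, hmax⟩ := S_compact.exists_isMaxOn hne (hf.continuousOn.mono hSU)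
  obtain ⟨v, hv, hev⟩ := good_dir hp
  have hfp : ContDiffAt ℝ 2 f p := hf.contDiffAt (hU.mem_nhds (hSU hp))
  have h2 := second_deriv (g := gN) v hfp
  obtain ⟨F, hF⟩ : ∃ F : ℝ → ℝ, F = fun t => f (quad p v (chr gN p v v) t) := ⟨_, rfl⟩
  rw [← hF] at h2
  have hM : IsLocalMax F 0 := by
    filter_upwards [hev] with t ht
    rw [hF]; simp only [quad_zero]
    exact hmax ht
  have hc : ContinuousAt F 0 := by
    rw [hF]
    apply ContinuousAt.comp _ (hd_quad p v _ 0).continuousAt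
    rw [quad_zero]; exact hfp.continuousAt
  have hpos' := hpos p (hSU hp) v hv
  have hm := isLocalMin_of_deriv_deriv_pos (f := F) (x₀ := 0) (by rw [h2]; exact hpos')
    hM.deriv_eq_zero hc
  have hconst : F =ᶠ[𝓝 0] fun _ => F 0 := by
    filter_upwards [hM, hm] with t h1 h2 using le_antisymm h1 h2
  have := hconst.deriv.deriv_eq
  rw [h2] at this
  simp at this
  linarith

theorem main : ∃ (g : Met 3) (r : ℝ), 0 < r ∧ IsMetric g ∧
    (∀ (c : ℝ → V 3) (ν : V 3), ContDiff ℝ 2 c → (∀ t, c t ⬝ᵥ c t = r) → deriv c 0 ≠ 0 →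
      (∀ u, c 0 ⬝ᵥ u = 0 → ip (g (c 0)) ν u = 0) → c 0 ⬝ᵥ ν < 0 → ip (g (c 0)) ν ν = 1 →
      0 < ip (g (c 0)) (deriv (deriv c) 0 + chr g (c 0) (deriv c 0) (deriv c 0)) ν) ∧
    (∀ (I : Set ℝ) (γ γ' : ℝ → V 3), (I = Set.Ioi 0 ∨ I = Set.Iio 0) →
      (∀ t ∈ I, HasDerivAt γ (γ' t) t ∧ HasDerivAt γ' (-chr g (γ t) (γ' t) (γ' t)) t ∧
        ip (g (γ t)) (γ' t) (γ' t) = 1) → ∃ t ∈ I, r < γ t ⬝ᵥ γ t) ∧
    ¬ ∃ f : V 3 → ℝ, ContDiffOn ℝ 2 f {x | x ⬝ᵥ x < r} ∧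
      ∀ x, x ⬝ᵥ x < r → ∀ v, v ≠ 0 → 0 < hess g f x v v :=
  ⟨gN, 201, by norm_num, g_metric, bdry_convex, nontrap, no_convex⟩

end Pool.Agent.H.MP_a29272_gt
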