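import Pool.Agent.H.MP_44343f_gt.Chr

namespace Pool.Agent.H.MP_a29272_gt

open Matrix Pool.Agent.H.MP_44343f_gt

noncomputable def hess {n : ℕ} (g : Met n) (f : V n → ℝ) (x u v : V n) : ℝ :=
  lineDeriv ℝ (fun z => lineDeriv ℝ f z v) x u - lineDeriv ℝ f x (chr g x u v)

noncomputable def el (s : ℝ) : ℝ := 4 * Real.exp 1 * expNegInvGlue (s - 200)

lemma el_smooth : ContDiff ℝ (⊤ : ℕ∞) el := by
  unfold el
  exact contDiff_const.mul (expNegInvGlue.contDiff.comp (contDiff_id.sub contDiff_const))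

lemma el_hd (s : ℝ) : HasDerivAt el (deriv el s) s :=
  (el_smooth.differentiable (by simp) s).hasDerivAt

lemma el_nonneg (s : ℝ) : 0 ≤ el s :=
  mul_nonneg (by positivity) (expNegInvGlue.nonneg _)

lemma el_mono : Monotone el := fun a b h =>
  mul_le_mul_of_nonneg_left (expNegInvGlue.monotone (by linarith)) (by positivity)

lemma del_nonneg (s : ℝ) : 0 ≤ deriv el s := el_mono.deriv_nonneg

lemma el_zero {s : ℝ} (h : s ≤ 200) : el s = 0 := by
  unfold el; rw [expNegInvGlue.zero_of_nonpos (by linarith), mul_zero]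

lemma del_zero {s : ℝ} (h : s ≤ 200) : deriv el s = 0 := by
  apply IsLocalMin.deriv_eq_zero
  exact Filter.Eventually.of_forall fun y => by rw [el_zero h]; exact el_nonneg y

lemma el_b : el 201 = 4 := by
  unfold el expNegInvGlue
  norm_num
  rw [mul_assoc, ← Real.exp_add]; simp

lemma del_b : deriv el 201 = 4 := by
  have h1 : HasDerivAt (fun s : ℝ => 4 * Real.exp 1 * Real.exp (-(s - 200)⁻¹))
      (4 * Real.exp 1 * (Real.exp (-((201 : ℝ) - 200)⁻¹) * -(-1 / ((201 : ℝ) - 200) ^ 2))) 201 :=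
    ((((hasDerivAt_id (201 : ℝ)).sub_const 200).inv (by norm_num)).neg.exp).const_mul _
  have h2 : el =ᶠ[nhds 201] fun s : ℝ => 4 * Real.exp 1 * Real.exp (-(s - 200)⁻¹) := by
    filter_upwards [lt_mem_nhds (show (200 : ℝ) < 201 by norm_num)] with s hs
    unfold el expNegInvGlue
    rw [if_neg (by linarith)]
  rw [(h1.congr_of_eventuallyEq h2).deriv]
  norm_num
  rw [mul_assoc, ← Real.exp_add]; simp

noncomputable def th (x u : V 3) : ℝ := u 2 + x 1 * u 0 / 2 - x 0 * u 1 / 2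

def cr (w u : V 3) : ℝ := w 0 * u 1 - w 1 * u 0

noncomputable def gN : Met 3 := fun x =>
  !![1 + x 1 ^ 2 / 4 + el (x ⬝ᵥ x), - x 0 * x 1 / 4, x 1 / 2;
    - x 0 * x 1 / 4, 1 + x 0 ^ 2 / 4 + el (x ⬝ᵥ x), - x 0 / 2;
    x 1 / 2, - x 0 / 2, 1 + el (x ⬝ᵥ x)]

lemma dot3 (u v : V 3) : u ⬝ᵥ v = u 0 * v 0 + u 1 * v 1 + u 2 * v 2 := by
  simp [dotProduct, Fin.sum_univ_three]

lemma ip_g (x u v : V 3) :
    ip (gN x) u v = u 0 * v 0 + u 1 * v 1 + th x u * th x v + el (x ⬝ᵥ x) * (u ⬝ᵥ v) := by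
  rw [dot3 u v]
  simp only [ip, gN, th, Matrix.mulVec, dot3, Matrix.of_apply, Matrix.cons_val', Matrix.cons_val_zero,
    Matrix.cons_val_one, Matrix.cons_val, Matrix.cons_val_fin_one]
  ring

lemma g_posdef (x : V 3) : (gN x).PosDef := by
  rw [Matrix.posDef_iff_dotProduct_mulVec]
  constructor
  · ext i j
    fin_cases i <;> fin_cases j <;> simp [gN]
  · intro v hv
    have : star v ⬝ᵥ gN x *ᵥ v = ip (gN x) v v := by simp [ip]
    rw [this, ip_g]
    have h1 : 0 ≤ el (x ⬝ᵥ x) * (v ⬝ᵥ v) := mul_nonneg (el_nonneg _) (by rw [dot3]; nlinarith [mul_self_nonneg (v 0), mul_self_nonneg (v 1), mul_self_nonneg (v 2)])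
    by_contra hn
    have a0 := mul_self_nonneg (v 0)
    have a1 := mul_self_nonneg (v 1)
    have a2 := mul_self_nonneg (th x v)
    have b0 : v 0 = 0 := by nlinarith
    have b1 : v 1 = 0 := by nlinarith
    have b2 : th x v = 0 := by nlinarith
    have b3 : v 2 = 0 := by simpa [th, b0, b1] using b2
    apply hv
    funext i
    fin_cases i <;> simp [b0, b1, b3]

lemma g_metric : IsMetric gN := by
  refine ⟨fun i j => ?_, g_posdef⟩
  have hN : ContDiff ℝ (⊤ : ℕ∞) (fun x : V 3 => el (x ⬝ᵥ x)) := by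
    apply el_smooth.comp
    simp only [dot3]; fun_prop
  fin_cases i <;> fin_cases j <;> simp [gN] <;> fun_prop

lemma hd_ip {x u v : ℝ → V 3} {x' u' v' : V 3} {t : ℝ} (hx : HasDerivAt x x' t)
    (hu : HasDerivAt u u' t) (hv : HasDerivAt v v' t) :
    HasDerivAt (fun r => ip (gN (x r)) (u r) (v r))
      (-(1 / 2) * (cr x' (u t) * th (x t) (v t) + cr x' (v t) * th (x t) (u t))
        + 2 * deriv el (x t ⬝ᵥ x t) * (x t ⬝ᵥ x') * (u t ⬝ᵥ v t)
        + ip (gN (x t)) u' (v t) + ip (gN (x t)) (u t) v') t := by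
  rw [hasDerivAt_pi] at hx hu hv
  have x0 := hx 0
  have x1 := hx 1
  have x2 := hx 2
  have u0 := hu 0
  have u1 := hu 1
  have u2 := hu 2
  have v0 := hv 0
  have v1 := hv 1
  have v2 := hv 2
  have hN : HasDerivAt (fun r => x r ⬝ᵥ x r) (2 * (x t ⬝ᵥ x')) t := by
    simp only [dot3]
    refine HasDerivAt.congr_deriv (((x0.mul x0).add (x1.mul x1)).add (x2.mul x2)) ?_
    ring
  have hl := (el_hd (x t ⬝ᵥ x t)).comp t hN
  have tu := (u2.add ((x1.mul u0).div_const 2)).sub ((x0.mul u1).div_const 2)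
  have tv := (v2.add ((x1.mul v0).div_const 2)).sub ((x0.mul v1).div_const 2)
  have huv := ((u0.mul v0).add (u1.mul v1)).add (u2.mul v2)
  have := (((u0.mul v0).add (u1.mul v1)).add (tu.mul tv)).add (hl.mul huv)
  refine HasDerivAt.congr_deriv (this.congr_of_eventuallyEq
    (Filter.Eventually.of_forall fun r => ?_)) ?_
  · simp only [ip_g, th, dot3 (u r) (v r)]; rfl
  · simp only [ip_g, th, cr, dot3 (u t), dot3 u', Pi.add_apply, Pi.sub_apply, Pi.mul_apply,
      Function.comp_apply]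
    ring

lemma ip_zero_left (A : Matrix (Fin 3) (Fin 3) ℝ) (v : V 3) : ip A 0 v = 0 := by simp [ip]
lemma ip_zero_right (A : Matrix (Fin 3) (Fin 3) ℝ) (v : V 3) : ip A v 0 = 0 := by simp [ip]

lemma hd_line (x w : V 3) : HasDerivAt (fun r : ℝ => x + r • w) w 0 := by
  rw [hasDerivAt_pi]; exact fun i => hd_coord x w i

lemma ld_ip (x u v w : V 3) : lineDeriv ℝ (fun z => ip (gN z) u v) x w =
    -(1 / 2) * (cr w u * th x v + cr w v * th x u)
      + 2 * deriv el (x ⬝ᵥ x) * (x ⬝ᵥ w) * (u ⬝ᵥ v) := by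
  have := hd_ip (hd_line x w) (hasDerivAt_const (0 : ℝ) u) (hasDerivAt_const (0 : ℝ) v)
  rw [lineDeriv, this.deriv]
  simp [ip_zero_left, ip_zero_right]

lemma ip_chr (x v w : V 3) : ip (gN x) w (chr gN x v v) =
    cr w v * th x v + 2 * deriv el (x ⬝ᵥ x) * (x ⬝ᵥ v) * (v ⬝ᵥ w)
      - deriv el (x ⬝ᵥ x) * (x ⬝ᵥ w) * (v ⬝ᵥ v) := by
  have hu : IsUnit (gN x).det := (Matrix.isUnit_iff_isUnit_det _).1 (g_posdef x).isUnit
  unfold chr
  rw [ip, Matrix.mulVec_mulVec, Matrix.mul_nonsing_inv _ hu, Matrix.one_mulVec]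
  simp only [ld_ip]
  generalize deriv el (x ⬝ᵥ x) = d
  simp [dot3, bv, cr, th]
  ring

lemma ip_comm (x u v : V 3) : ip (gN x) u v = ip (gN x) v u := by
  rw [ip_g, ip_g, dot3 u v, dot3 v u]; ring

end Pool.Agent.H.MP_a29272_gt
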