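import Pool.Agent.H.MP_a29272_gt.Metric

namespace Pool.Agent.H.MP_a29272_gt

open Matrix Pool.Agent.H.MP_44343f_gt Set

def dil (x : V 3) : V 3 := ![x 0, x 1, 2 * x 2]

lemma hd_dil {x : ℝ → V 3} {x' : V 3} {t : ℝ} (hx : HasDerivAt x x' t) :
    HasDerivAt (fun r => dil (x r)) (dil x') t := by
  rw [hasDerivAt_pi] at hx ⊢
  intro i
  fin_cases i
  · exact hx 0
  · exact hx 1
  · exact (hx 2).const_mul 2

lemma ip_neg_right (A : Matrix (Fin 3) (Fin 3) ℝ) (u v : V 3) : ip A u (-v) = - ip A u v := by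
  simp [ip, Matrix.mulVec_neg]

lemma dot_nonneg (v : V 3) : 0 ≤ v ⬝ᵥ v := by
  rw [dot3]; nlinarith [mul_self_nonneg (v 0), mul_self_nonneg (v 1), mul_self_nonneg (v 2)]

lemma escape {γ γ' : ℝ → V 3} {t : ℝ} (h1 : HasDerivAt γ (γ' t) t)
    (h2 : HasDerivAt γ' (-chr gN (γ t) (γ' t) (γ' t)) t) :
    ∃ d, HasDerivAt (fun r => ip (gN (γ r)) (dil (γ r)) (γ' r)) d t ∧
      ip (gN (γ t)) (γ' t) (γ' t) ≤ d := by
  refine ⟨_, hd_ip h1 (hd_dil h1) h2, ?_⟩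
  rw [ip_neg_right, ip_chr, ip_g, ip_g]
  have e1 := el_nonneg (γ t ⬝ᵥ γ t)
  have e2 := del_nonneg (γ t ⬝ᵥ γ t)
  generalize el (γ t ⬝ᵥ γ t) = l at *
  generalize deriv el (γ t ⬝ᵥ γ t) = d at *
  generalize γ t = x at *
  generalize γ' t = v at *
  have k1 : 0 ≤ d * (x ⬝ᵥ dil x) * (v ⬝ᵥ v) := by
    refine mul_nonneg (mul_nonneg e2 ?_) (dot_nonneg v)
    simp only [dot3, dil, Matrix.cons_val_zero, Matrix.cons_val_one, Matrix.cons_val]
    nlinarith [mul_self_nonneg (x 0), mul_self_nonneg (x 1), mul_self_nonneg (x 2)]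
  have k2 : 0 ≤ l * (v 2 * v 2) := mul_nonneg e1 (mul_self_nonneg _)
  have k3 := mul_self_nonneg (th x v)
  simp only [dot3, dil, th, cr, Matrix.cons_val_zero, Matrix.cons_val_one, Matrix.cons_val] at *
  nlinarith

lemma ip_bound (x v : V 3) (hx : x ⬝ᵥ x ≤ 201) (hv : ip (gN x) v v = 1) :
    |ip (gN x) (dil x) v| ≤ 3000 := by
  have hl : el (x ⬝ᵥ x) ≤ 4 := el_b ▸ el_mono hx
  have e1 := el_nonneg (x ⬝ᵥ x)
  have hX : ip (gN x) (dil x) (dil x) ≤ 5000 := by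
    rw [ip_g]
    generalize el (x ⬝ᵥ x) = l at *
    simp only [dot3, dil, th, Matrix.cons_val_zero, Matrix.cons_val_one, Matrix.cons_val] at *
    have a0 := mul_self_nonneg (x 0)
    have a1 := mul_self_nonneg (x 1)
    have a2 := mul_self_nonneg (x 2)
    have : l * (x 0 * x 0 + x 1 * x 1 + 2 * x 2 * (2 * x 2)) ≤ 4 * (4 * 201) := by
      apply mul_le_mul hl _ _ (by norm_num) <;> nlinarith
    nlinarith
  have p1 : 0 ≤ ip (gN x) (dil x + v) (dil x + v) := by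
    rw [ip_g]
    have := mul_nonneg e1 (dot_nonneg (dil x + v))
    nlinarith [mul_self_nonneg ((dil x + v) 0), mul_self_nonneg ((dil x + v) 1),
      mul_self_nonneg (th x (dil x + v))]
  have p2 : 0 ≤ ip (gN x) (dil x - v) (dil x - v) := by
    rw [ip_g]
    have := mul_nonneg e1 (dot_nonneg (dil x - v))
    nlinarith [mul_self_nonneg ((dil x - v) 0), mul_self_nonneg ((dil x - v) 1),
      mul_self_nonneg (th x (dil x - v))]
  have q1 : ip (gN x) (dil x + v) (dil x + v) =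
      ip (gN x) (dil x) (dil x) + 2 * ip (gN x) (dil x) v + ip (gN x) v v := by
    simp only [ip_g, dot3 (dil x + v), dot3 (dil x), dot3 v, th, Pi.add_apply]; ring
  have q2 : ip (gN x) (dil x - v) (dil x - v) =
      ip (gN x) (dil x) (dil x) - 2 * ip (gN x) (dil x) v + ip (gN x) v v := by
    simp only [ip_g, dot3 (dil x - v), dot3 (dil x), dot3 v, th, Pi.sub_apply]; ring
  rw [abs_le]
  constructor <;> linarith

lemma nontrap (I : Set ℝ) (γ γ' : ℝ → V 3) (hI : I = Ioi 0 ∨ I = Iio 0)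
    (h : ∀ t ∈ I, HasDerivAt γ (γ' t) t ∧ HasDerivAt γ' (-chr gN (γ t) (γ' t) (γ' t)) t ∧
      ip (gN (γ t)) (γ' t) (γ' t) = 1) : ∃ t ∈ I, 201 < γ t ⬝ᵥ γ t := by
  by_contra hn
  push Not at hn
  obtain ⟨a, ha⟩ : ∃ a : ℝ, ∀ t ∈ Icc a (a + 7000), t ∈ I := by
    rcases hI with rfl | rfl
    · exact ⟨1, fun t ht => by simp only [mem_Ioi]; linarith [ht.1]⟩
    · exact ⟨-7001, fun t ht => by simp only [mem_Iio]; linarith [ht.2]⟩
  obtain ⟨u, hu⟩ : ∃ u : ℝ → ℝ, u = fun r => ip (gN (γ r)) (dil (γ r)) (γ' r) := ⟨_, rfl⟩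
  have hd : ∀ t ∈ Icc a (a + 7000), ∃ d, HasDerivAt u d t ∧ 1 ≤ d := by
    intro t ht
    obtain ⟨h1, h2, h3⟩ := h t (ha t ht)
    obtain ⟨d, hd1, hd2⟩ := escape h1 h2
    exact ⟨d, hu ▸ hd1, h3 ▸ hd2⟩
  have hc : ContinuousOn u (Icc a (a + 7000)) := fun t ht =>
    (hd t ht).choose_spec.1.continuousAt.continuousWithinAt
  have hdi : DifferentiableOn ℝ u (interior (Icc a (a + 7000))) := fun t ht =>
    (hd t (interior_subset ht)).choose_spec.1.differentiableAt.differentiableWithinAt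
  have key := (convex_Icc a (a + 7000)).mul_sub_le_image_sub_of_le_deriv hc hdi (C := 1)
    (fun t ht => by
      obtain ⟨d, h1, h2⟩ := hd t (interior_subset ht)
      rw [h1.deriv]; exact h2) a (by simp) (a + 7000) (by simp) (by linarith)
  have m1 : a ∈ Icc a (a + 7000) := by simp
  have m2 : a + 7000 ∈ Icc a (a + 7000) := by simp
  have b1 := abs_le.1 (ip_bound _ _ (hn _ (ha _ m1)) (h _ (ha _ m1)).2.2)
  have b2 := abs_le.1 (ip_bound _ _ (hn _ (ha _ m2)) (h _ (ha _ m2)).2.2)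
  subst hu
  linarith [b1.1, b2.2]

lemma convex_alg (p v n : V 3) (hp : p ⬝ᵥ p = 201) (hv : v ≠ 0) :
    cr n v * th p v < (v ⬝ᵥ v) * (1 + 16 * (n ⬝ᵥ n)) := by
  have hvv : 0 < v ⬝ᵥ v := by
    rcases (dot_nonneg v).lt_or_eq with h | h
    · exact h
    · exact absurd (dotProduct_self_eq_zero.1 h.symm) hv
  have hn := dot_nonneg n
  have h1 : cr n v ^ 2 ≤ (n ⬝ᵥ n) * (v ⬝ᵥ v) := by
    simp only [cr, dot3]
    nlinarith [sq_nonneg (n 0 * v 0 + n 1 * v 1), mul_self_nonneg (n 2 * v 2),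
      mul_self_nonneg (n 2 * v 0), mul_self_nonneg (n 2 * v 1), mul_self_nonneg (n 0 * v 2),
      mul_self_nonneg (n 1 * v 2)]
  have h2 : th p v ^ 2 ≤ 52 * (v ⬝ᵥ v) := by
    have : th p v ^ 2 ≤ (1 + (p 0 * p 0 + p 1 * p 1) / 4) * (v ⬝ᵥ v) := by
      simp only [th, dot3]
      nlinarith [sq_nonneg (v 0 - p 1 * v 2 / 2), sq_nonneg (v 1 + p 0 * v 2 / 2),
        sq_nonneg (p 0 * v 0 + p 1 * v 1)]
    have h3 : 1 + (p 0 * p 0 + p 1 * p 1) / 4 ≤ 52 := by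
      rw [dot3] at hp; nlinarith [mul_self_nonneg (p 2)]
    nlinarith
  apply lt_of_pow_lt_pow_left₀ 2 (by positivity)
  calc (cr n v * th p v) ^ 2 = cr n v ^ 2 * th p v ^ 2 := by ring
    _ ≤ ((n ⬝ᵥ n) * (v ⬝ᵥ v)) * (52 * (v ⬝ᵥ v)) :=
        mul_le_mul h1 h2 (sq_nonneg _) (by positivity)
    _ = (v ⬝ᵥ v) ^ 2 * (52 * (n ⬝ᵥ n)) := by ring
    _ < (v ⬝ᵥ v) ^ 2 * (1 + 16 * (n ⬝ᵥ n)) ^ 2 := by
        apply mul_lt_mul_of_pos_left _ (by positivity)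
        nlinarith [sq_nonneg (1 - 16 * (n ⬝ᵥ n))]
    _ = _ := by ring

lemma ip_add_left (A : Matrix (Fin 3) (Fin 3) ℝ) (a b v : V 3) :
    ip A (a + b) v = ip A a v + ip A b v := by simp [ip]

lemma bdry_convex (c : ℝ → V 3) (ν : V 3) (hc : ContDiff ℝ 2 c) (hs : ∀ t, c t ⬝ᵥ c t = 201)
    (hv : deriv c 0 ≠ 0) (hν : ∀ u, c 0 ⬝ᵥ u = 0 → ip (gN (c 0)) ν u = 0) (hin : c 0 ⬝ᵥ ν < 0)
    (hunit : ip (gN (c 0)) ν ν = 1) :
    0 < ip (gN (c 0)) (deriv (deriv c) 0 + chr gN (c 0) (deriv c 0) (deriv c 0)) ν := by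
  have hd1 : ∀ t, HasDerivAt c (deriv c t) t := fun t =>
    (hc.differentiable (by norm_num) t).hasDerivAt
  have hc2 : ContDiff ℝ 1 (deriv c) := by
    have : ContDiff ℝ (1 + 1) c := by rw [one_add_one_eq_two]; exact hc
    exact this.deriv'
  have hd2 : HasDerivAt (deriv c) (deriv (deriv c) 0) 0 :=
    (hc2.differentiable (by norm_num) 0).hasDerivAt
  have t1 : ∀ t, c t ⬝ᵥ deriv c t = 0 := by
    intro t
    have h := hasDerivAt_pi.1 (hd1 t)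
    have h1 := (((h 0).mul (h 0)).add ((h 1).mul (h 1))).add ((h 2).mul (h 2))
    have h2 : HasDerivAt (fun _ : ℝ => (201 : ℝ)) _ t := h1.congr_of_eventuallyEq
      (Filter.Eventually.of_forall fun r => by rw [← hs r, dot3]; rfl)
    have := h2.unique (hasDerivAt_const t _)
    rw [dot3]; linarith
  have t2 : c 0 ⬝ᵥ deriv (deriv c) 0 = - (deriv c 0 ⬝ᵥ deriv c 0) := by
    have h := hasDerivAt_pi.1 (hd1 0)
    have k := hasDerivAt_pi.1 hd2
    have h1 := (((h 0).mul (k 0)).add ((h 1).mul (k 1))).add ((h 2).mul (k 2))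
    have h2 : HasDerivAt (fun _ : ℝ => (0 : ℝ)) _ 0 := h1.congr_of_eventuallyEq
      (Filter.Eventually.of_forall fun r => by rw [← t1 r, dot3]; rfl)
    have := h2.unique (hasDerivAt_const (0 : ℝ) _)
    rw [dot3, dot3]; linarith
  have hp := hs 0
  have hpv := t1 0
  generalize deriv (deriv c) 0 = a at *
  generalize deriv c 0 = v at *
  generalize c 0 = p at *
  obtain ⟨m, hm⟩ : ∃ m, m = - (p ⬝ᵥ ν) := ⟨_, rfl⟩
  have hm0 : 0 < m := by linarith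
  have key : ∀ u, m * ip (gN p) ν u = - (p ⬝ᵥ u) := by
    intro u
    have := hν (m • u + (p ⬝ᵥ u) • ν) (by
      rw [dotProduct_add, dotProduct_smul, dotProduct_smul, smul_eq_mul, smul_eq_mul, hm]; ring)
    have e : ip (gN p) ν (m • u + (p ⬝ᵥ u) • ν) =
        m * ip (gN p) ν u + (p ⬝ᵥ u) * ip (gN p) ν ν := by
      simp [ip, Matrix.mulVec_add, Matrix.mulVec_smul]
    rw [e, hunit] at this
    linarith
  rw [ip_add_left, ip_comm p a, ip_comm p (chr gN p v v), ip_chr, hp, del_b, hpv]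
  have k1 := key a
  have k2 := convex_alg p v (-(m • ν)) hp hv
  have k3 : 4 * (ν ⬝ᵥ ν) ≤ 1 := by
    rw [ip_g, hp, el_b] at hunit
    nlinarith [mul_self_nonneg (ν 0), mul_self_nonneg (ν 1), mul_self_nonneg (th p ν)]
  have e1 : cr (-(m • ν)) v = - m * cr ν v := by simp [cr]; ring
  have e2 : (-(m • ν)) ⬝ᵥ (-(m • ν)) = m ^ 2 * (ν ⬝ᵥ ν) := by
    simp only [dot3, Pi.neg_apply, Pi.smul_apply, smul_eq_mul]; ring
  rw [e1, e2] at k2
  have hvv := dot_nonneg v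
  have k4 : (v ⬝ᵥ v) * (16 * (m ^ 2 * (ν ⬝ᵥ ν))) ≤ (v ⬝ᵥ v) * (4 * m ^ 2) := by
    apply mul_le_mul_of_nonneg_left _ hvv
    nlinarith [sq_nonneg m]
  have : 0 < m * (ip (gN p) ν a + (cr ν v * th p v + 2 * 4 * 0 * (v ⬝ᵥ ν)
      - 4 * (p ⬝ᵥ ν) * (v ⬝ᵥ v))) := by
    have e3 : p ⬝ᵥ ν = - m := by linarith
    rw [e3, mul_add, k1, t2]
    nlinarith
  exact (mul_pos_iff_of_pos_left hm0).1 this

end Pool.Agent.H.MP_a29272_gt
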